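import Pool.Agent.P.MP_119182_lc.AH.Iface
import Pool.Agent.P.MP_119182_lc.AG.TEND

/-! The end statement for references kept in a small cache. -/

set_option autoImplicit false

namespace Pool.Agent.P.MP_119182_lc.AH

open Finset
open scoped Classical
open NU.Avg (last_spec)
open AE (Wit end_new)
open AG (end_sq)
open WQ (gq)

theorem cache_seen {a : ℕ → ℕ} {Q : ℕ → Finset ℕ} (h0 : Q 0 = ∅)
    (h1 : ∀ i, Q (i + 1) ⊆ insert (a i) (Q i)) (j : ℕ) : ∀ i, j ∈ Q i → ∃ r < i, a r = j := by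
  intro i
  induction i with
  | zero => intro h; rw [h0] at h; simp at h
  | succ i ih =>
    intro h
    rcases mem_insert.1 (h1 i h) with e | e
    · exact ⟨i, by omega, e.symm⟩
    · obtain ⟨r, r1, r2⟩ := ih e
      exact ⟨r, by omega, r2⟩

theorem cache_back {a : ℕ → ℕ} {Q : ℕ → Finset ℕ} (h1 : ∀ i, Q (i + 1) ⊆ insert (a i) (Q i))
    (j t : ℕ) : ∀ i, t ≤ i → (∀ r, t ≤ r → r < i → a r ≠ j) → j ∈ Q i → j ∈ Q t := by
  intro i hi
  induction i, hi using Nat.le_induction with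
  | base => exact fun _ h => h
  | succ i hi ih =>
    intro k h
    rcases mem_insert.1 (h1 i h) with e | e
    · exact absurd e.symm (k i hi (by omega))
    · exact ih (fun r r1 r2 => k r r1 (by omega)) e

theorem last_max (a : ℕ → ℕ) (i j r : ℕ) (h1 : r < i) (h2 : a r = j) : r ≤ lastIdx a i j := by
  unfold lastIdx
  exact le_sup (f := id) (mem_filter.2 ⟨mem_range.2 h1, h2⟩)

theorem end_wit {a : ℕ → ℕ} {Q : ℕ → Finset ℕ} (h0 : Q 0 = ∅)
    (hQ : ∀ i, Q (i + 1) ⊆ insert (a i) (Q i)) (i j u : ℕ) (h1 : 1 ≤ i)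
    (h : wset a i j ≤ 2 ^ u ∨ j ∈ Q i) :
    ∃ (s v : ℕ) (f : Prop), s < i ∧
      (#((Ioc s i).image a) ≤ 2 ^ u ∨ ∀ t, s < t → t ≤ i → a s ∈ Q t) ∧
      v ≤ Nat.log 2 (wset a i j + Nat.dist (a i) j) + 1 ∧
      (¬ f → v ≤ u ∧ #((Ioc s i).image a) + Nat.dist (a i) (a s) ≤ 2 ^ v) ∧
      (f → (u ≤ Nat.log 2 (wset a i j + Nat.dist (a i) j) ∧ a s = j) ∨
        ((¬ ∃ r < i, a r = a i) ∧ #((Ioc 0 i).image a) ≤ 2 ^ u)) := by
  by_cases c : wset a i j ≤ 2 ^ u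
  · obtain ⟨s, v, f, b1, b2, b3⟩ := AG.end_wit a i j u h1 c
    exact ⟨s, v, f, b1, Or.inl b2, b3⟩
  have hj := h.resolve_left c
  obtain ⟨r, hr, rfl⟩ := cache_seen h0 hQ j i hj
  refine ⟨lastIdx a i (a r), 0, True, (last_spec hr).1, Or.inr fun t t1 t2 => ?_, Nat.zero_le _,
    fun c => absurd trivial c,
    fun _ => Or.inl ⟨Nat.le_log_of_pow_le one_lt_two (by omega), (last_spec (a := a) hr).2⟩⟩
  rw [(last_spec (a := a) hr).2]
  refine cache_back hQ _ t i t2 (fun q q1 q2 e => ?_) hj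
  have := last_max a i (a r) q q2 e
  omega

theorem kk_le {a s : ℕ → ℕ} {Q : ℕ → Finset ℕ} {m u : ℕ} {F : Finset ℕ}
    (hc : ∀ i, #(Q i) ≤ 2 ^ u)
    (H : ∀ i < m, 1 ≤ i → #((Ioc (s i) i).image a) ≤ 2 ^ u ∨ ∀ t, s i < t → t ≤ i → a (s i) ∈ Q t)
    (t : ℕ) : KK m a s F t ≤ 2 ^ (u + 2) := by
  have c2 : 1 ≤ 2 ^ u := Nat.one_le_two_pow
  have c3 : 2 ^ (u + 2) = 4 * 2 ^ u := by ring
  have c4 := hc t
  unfold KK
  rcases ((range m).filter fun i => s i < t ∧ t ≤ i ∧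
    #((Ioc (s i) i).image a) ≤ 2 ^ u).eq_empty_or_nonempty with e | e
  · refine (card_le_card (t := Q t) fun c hc => ?_).trans (by omega)
    obtain ⟨i, hi, rfl⟩ := mem_image.1 hc
    obtain ⟨a1, -, a3, a4⟩ := mem_filter.1 hi
    rcases H i (mem_range.1 a1) (by omega) with k | k
    · exact absurd ⟨a3, a4, k⟩ (filter_eq_empty_iff.1 e a1)
    · exact k t a3 a4
  obtain ⟨k, hk, hl⟩ := exists_min_image _ s e
  obtain ⟨-, k2, k3, k4⟩ := mem_filter.1 hk
  refine (card_le_card (t := Q t ∪ insert (a (s k)) ((Ioc (s k) k).image a))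
    fun c hc => ?_).trans ((card_union_le _ _).trans ?_)
  · obtain ⟨i, hi, rfl⟩ := mem_image.1 hc
    obtain ⟨a1, -, a3, a4⟩ := mem_filter.1 hi
    rcases H i (mem_range.1 a1) (by omega) with b | b
    · have b1 := hl i (mem_filter.2 ⟨a1, a3, a4, b⟩)
      refine mem_union_right _ ?_
      rcases b1.eq_or_lt with b2 | b2
      · rw [b2]
        exact mem_insert_self _ _
      · exact mem_insert_of_mem (mem_image_of_mem _ (mem_Ioc.2 ⟨b2, by omega⟩))
    · exact mem_union_left _ (b t a3 a4)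
  · have := card_insert_le (a (s k)) ((Ioc (s k) k).image a)
    omega

theorem end_nat (hLOC : S_LOC) (q : ℕ) (hq : 2 ≤ q) :
    ∃ C : ℕ, ∀ (n m u : ℕ) (T : BT) (a y : ℕ → ℕ) (Q : ℕ → Finset ℕ),
    T.keys = List.range' 1 n → (∀ i < m, 1 ≤ a i ∧ a i ≤ n) → Q 0 = ∅ →
    (∀ i, Q (i + 1) ⊆ insert (a i) (Q i)) → (∀ i, #(Q i) ≤ 2 ^ u) →
    (∀ i < m, wset a i (y i) ≤ 2 ^ u ∨ y i ∈ Q i) →
    cost T ((List.range m).map a) ≤
      C * (∑ i ∈ range m, min u (Nat.log 2 (wset a i (y i) + Nat.dist (a i) (y i))) +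
          (n + m) * (Nat.log 2 u + 1) ^ 8 + n * (u + 1) +
        ∑ i ∈ range m, gq q (Nat.log 2 (Nat.dist (a i) (y i) / 2 ^ u + 1))) := by
  obtain ⟨C, hC⟩ := hLOC q hq
  refine ⟨C * 310, fun n m u T a y Q hT ha q0 q1 q2 hy => ?_⟩
  rcases Nat.eq_zero_or_pos n with rfl | hn
  · rcases Nat.eq_zero_or_pos m with rfl | hm
    · simp [cost]
    · have := ha 0 hm
      omega
  have w : ∀ i, ∃ (s v : ℕ) (f : Prop), (i = 0 → s = 0) ∧ (i < m → 1 ≤ i → s < i ∧
      (#((Ioc s i).image a) ≤ 2 ^ u ∨ ∀ t, s < t → t ≤ i → a s ∈ Q t) ∧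
      v ≤ Nat.log 2 (wset a i (y i) + Nat.dist (a i) (y i)) + 1 ∧
      (¬ f → v ≤ u ∧ #((Ioc s i).image a) + Nat.dist (a i) (a s) ≤ 2 ^ v) ∧
      (f → (u ≤ Nat.log 2 (wset a i (y i) + Nat.dist (a i) (y i)) ∧ a s = y i) ∨
        ((¬ ∃ r < i, a r = a i) ∧ #((Ioc 0 i).image a) ≤ 2 ^ u))) := fun i => by
    by_cases hi : i < m ∧ 1 ≤ i
    · obtain ⟨s, v, f, h⟩ := end_wit q0 q1 i (y i) u hi.2 (hy i hi.1)
      exact ⟨s, v, f, fun e => by omega, fun _ _ => h⟩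
    · exact ⟨0, 0, True, fun _ => rfl, fun c1 c2 => absurd ⟨c1, c2⟩ hi⟩
  choose s v f w0 w using w
  obtain ⟨F, hF⟩ : ∃ F, F = (range m).filter fun i => 1 ≤ i ∧ f i := ⟨_, rfl⟩
  obtain ⟨N, hN⟩ : ∃ N, N = (range m).filter fun i =>
      (¬ ∃ r < i, a r = a i) ∧ #((Ioc 0 i).image a) ≤ 2 ^ u := ⟨_, rfl⟩
  have n1 : #N ≤ 2 ^ u + 1 := hN ▸ end_new a m (2 ^ u)
  have n2 : #N ≤ n := by
    refine le_trans (card_le_card_of_injOn (t := Icc 1 n) a (fun i hi => ?_)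
      fun i hi i' hi' e => ?_) (by simp)
    · exact mem_coe.2 (mem_Icc.2 (ha i (mem_range.1 (mem_filter.1 (hN ▸ mem_coe.1 hi)).1)))
    · have b1 := (mem_filter.1 (hN ▸ mem_coe.1 hi)).2.1
      have b2 := (mem_filter.1 (hN ▸ mem_coe.1 hi')).2.1
      rcases lt_trichotomy i i' with h4 | h4 | h4
      · exact absurd ⟨i, h4, e⟩ b2
      · exact h4
      · exact absurd ⟨i', h4, e.symm⟩ b1
  have f0 : 0 ∉ F := fun c => by
    have := (mem_filter.1 (hF ▸ c)).2.1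
    omega
  have a1 := hC n u m T a s v (insert 0 F) hT ha
    (fun i hi hi' => by
      rw [mem_insert, not_or] at hi'
      have h1 : 1 ≤ i := by omega
      obtain ⟨b1, -, -, b4, -⟩ := w i hi h1
      exact ⟨b1, b4 fun c => hi'.2 (hF ▸ mem_filter.2 ⟨mem_range.2 hi, h1, c⟩)⟩)
    (fun i hi _ => by
      rcases Nat.eq_zero_or_pos i with e | e
      · have := w0 i e
        omega
      · have := (w i hi e).1
        omega)
    (kk_le q2 fun i hi h1 => (w i hi h1).2.1)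
  rw [sum_insert f0, card_insert_of_notMem f0, w0 0 rfl, Nat.dist_self, Nat.zero_div] at a1
  have a0 : gq q (Nat.log 2 (0 + 1)) = 0 := by
    have := end_sq (q := q) (by omega) (Nat.log 2 (0 + 1))
    simpa using this
  rw [a0, zero_add] at a1
  obtain ⟨k, hk⟩ : ∃ k, k = n / 2 ^ u := ⟨_, rfl⟩
  have k1 : 2 ^ u * k ≤ n := hk ▸ Nat.mul_div_le _ _
  have k2 : Nat.log 2 (k + 1) ^ 2 ≤ 4 * k := by
    rcases Nat.eq_zero_or_pos k with rfl | h
    · simp
    · have c1 := NU.Avg.sq_le (Nat.log 2 (k + 1))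
      have c2 := Nat.pow_log_le_self 2 (x := k + 1) (by omega)
      omega
  have a2 : ∑ i ∈ (range m).filter (fun i => i ∉ insert 0 F), (v i + 1) ≤
      ∑ i ∈ range m, (min u (Nat.log 2 (wset a i (y i) + Nat.dist (a i) (y i))) + 2) := by
    rw [sum_filter]
    refine sum_le_sum fun i hi => ?_
    split_ifs with c
    · exact Nat.zero_le _
    · rw [mem_insert, not_or] at c
      obtain ⟨-, -, b3, b4, -⟩ := w i (mem_range.1 hi) (by omega)
      have := (b4 fun e => c.2 (hF ▸ mem_filter.2 ⟨hi, by omega, e⟩)).1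
      omega
  have a3 : ∑ i ∈ F, (u + 1 + gq q (Nat.log 2 (Nat.dist (a i) (a (s i)) / 2 ^ u + 1))) ≤
      ∑ i ∈ range m, (min u (Nat.log 2 (wset a i (y i) + Nat.dist (a i) (y i))) + 1 +
        gq q (Nat.log 2 (Nat.dist (a i) (y i) / 2 ^ u + 1)) +
        if i ∈ N then u + 1 + 4 * k else 0) := by
    rw [hF, sum_filter]
    refine sum_le_sum fun i hi => ?_
    have hi' := mem_range.1 hi
    by_cases c : 1 ≤ i ∧ f i
    · rw [if_pos c]
      obtain ⟨b1, -, -, -, b5⟩ := w i hi' c.1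
      rcases b5 c.2 with ⟨b6, b7⟩ | b6
      · rw [b7]
        omega
      · rw [if_pos (hN ▸ mem_filter.2 ⟨hi, b6⟩)]
        have c1 := ha i hi'
        have c2 := ha (s i) (by omega)
        have c3 : Nat.dist (a i) (a (s i)) / 2 ^ u ≤ k :=
          hk ▸ Nat.div_le_div_right (by unfold Nat.dist; omega)
        have c4 := (end_sq (q := q) (by omega) _).trans ((Nat.pow_le_pow_left
          (Nat.log_mono_right (b := 2) (Nat.succ_le_succ c3)) 2).trans k2)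
        simp only [Nat.succ_eq_add_one] at c4
        omega
    · rw [if_neg c]
      exact Nat.zero_le _
  have a4 : ∑ i ∈ range m, (if i ∈ N then u + 1 + 4 * k else 0) ≤ n * (u + 1) + 8 * n := by
    rw [← sum_filter, sum_const, smul_eq_mul]
    have c1 : #((range m).filter fun i => i ∈ N) ≤ #N :=
      card_le_card fun i hi => (mem_filter.1 hi).2
    have c2 : 1 ≤ 2 ^ u := Nat.one_le_two_pow
    refine (Nat.mul_le_mul_right _ c1).trans ?_
    rw [mul_add]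
    refine Nat.add_le_add (Nat.mul_le_mul_right _ n2) ?_
    calc #N * (4 * k) ≤ (2 * 2 ^ u) * (4 * k) := Nat.mul_le_mul_right _ (by omega)
      _ = 8 * (2 ^ u * k) := by ring
      _ ≤ _ := by omega
  have a5 : Nat.log 2 (u + 1) ≤ Nat.log 2 u + 1 := by
    rcases Nat.eq_zero_or_pos u with rfl | hu
    · simp
    · rw [← Nat.log_mul_base one_lt_two hu.ne']
      exact Nat.log_mono_right (by omega)
  have a6 : (n + m) * (Nat.log 2 (u + 1) + 1) ^ 8 ≤ 256 * ((n + m) * (Nat.log 2 u + 1) ^ 8) :=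
    calc _ ≤ (n + m) * (2 * (Nat.log 2 u + 1)) ^ 8 :=
          Nat.mul_le_mul_left _ (Nat.pow_le_pow_left (by omega) 8)
      _ = _ := by ring
  have a7 : n + m ≤ (n + m) * (Nat.log 2 u + 1) ^ 8 := Nat.le_mul_of_pos_right _ (by positivity)
  simp only [sum_add_distrib, sum_const, card_range, smul_eq_mul] at a2 a3
  refine a1.trans ?_
  rw [mul_assoc]
  refine Nat.mul_le_mul_left _ ?_
  simp only [sum_add_distrib, sum_const, smul_eq_mul]
  have e : (#F + 1) * (u + 1) = #F * u + #F * 1 + (u + 1) := by ring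
  have e2 : u + 1 ≤ n * (u + 1) := Nat.le_mul_of_pos_left _ hn
  omega

theorem p_END (hLOC : S_LOC) : S_END := by
  intro ε hε
  obtain ⟨q0, hq0⟩ := exists_nat_one_div_lt hε
  have hq : 1 / ((q0 + 2 : ℕ) : ℝ) ≤ ε := by
    refine le_trans (one_div_le_one_div_of_le (by positivity) ?_) hq0.le
    push_cast
    linarith
  obtain ⟨C, hC⟩ := end_nat hLOC (q0 + 2) (by omega)
  refine ⟨C, fun n m u T a y Q hT ha q0 q1 q2 hy => ?_⟩
  refine (Nat.cast_le.2 (hC n m u T a y Q hT ha q0 q1 q2 hy)).trans ?_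
  rw [Nat.cast_mul, Nat.cast_add]
  refine mul_le_mul_of_nonneg_left (add_le_add le_rfl ?_) (Nat.cast_nonneg _)
  rw [Nat.cast_sum]
  exact sum_le_sum fun i _ => WQ.gq_real (by omega) hq _

end Pool.Agent.P.MP_119182_lc.AH
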