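import Pool.Agent.P.MP_119182_lc.AH.Iface
import Pool.Agent.P.MP_119182_lc.AE.TMKA
import Pool.Agent.P.MP_119182_lc.AE.TMKB

/-! The link bound and the bound with witnesses for references kept in a small cache. -/

set_option autoImplicit false

namespace Pool.Agent.P.MP_119182_lc.AH

open Finset
open scoped Classical
open NU (mr)
open IT (Marks One mq)
open AE (tl PP QM HH Hot Wit)
open AG (Sys OK ht BB0 BB1)
open WQ (Wt S_LQ ww gq)

/-- The waiting keys at time `t` of the fourfold sequence. -/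
noncomputable def WW (m : ℕ) (y : ℕ → ℤ) (s : ℕ → ℕ) (E : Finset ℕ) (t : ℕ) : Finset ℤ :=
  ((range m).filter fun i => i ∈ E ∧ 4 * s i + 3 ≤ t ∧ t ≤ 4 * i).image fun i => y (s i)

theorem ww_sub {m : ℕ} {y : ℕ → ℤ} {s : ℕ → ℕ} {E : Finset ℕ} (t : ℕ) :
    WW m y s E (t + 1) ⊆ insert (y ((t + 1) / 4)) (WW m y s E t) := by
  intro z hz
  obtain ⟨i, hi, rfl⟩ := mem_image.1 hz
  obtain ⟨r1, r2, r4, r5⟩ := mem_filter.1 hi
  by_cases c : 4 * s i + 3 ≤ t
  · exact mem_insert_of_mem (mem_image.2 ⟨i, mem_filter.2 ⟨r1, r2, c, by omega⟩, rfl⟩)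
  · rw [show (t + 1) / 4 = s i by omega]
    exact mem_insert_self _ _

theorem mk_union {L R : ℤ} {m c Z : ℕ} {y : ℕ → ℤ} {s : ℕ → ℕ} {E : Finset ℕ}
    {Q : ℕ → Finset ℤ} (h : Marks L R (4 * m) (fun q => y (q / 4)) c Z Q)
    (hy : ∀ i < m, L < y i ∧ y i < R) :
    ∃ c Z, Marks L R (4 * m) (fun q => y (q / 4)) c Z fun t => Q t ∪ WW m y s E t := by
  refine AE.MKAx.mk (fun t ht z hz => ?_) (fun t ht => mem_union_left _ (h.own t ht))
    fun t ht z hz => ?_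
  · rcases mem_union.1 hz with hz | hz
    · exact h.mem t ht z hz
    · obtain ⟨i, hi, rfl⟩ := mem_image.1 hz
      obtain ⟨r1, -, r4, r5⟩ := mem_filter.1 hi
      exact hy _ (by omega)
  · rcases mem_union.1 hz with hz | hz
    · rcases mem_insert.1 (h.sub t ht hz) with e | e
      · exact mem_insert.2 (Or.inl e)
      · exact mem_insert_of_mem (mem_union_left _ e)
    · rcases mem_insert.1 (ww_sub t hz) with e | e
      · exact mem_insert.2 (Or.inl e)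
      · exact mem_insert_of_mem (mem_union_right _ e)

theorem del {A m : ℕ} {L R : ℤ} {y : ℕ → ℤ} {s : ℕ → ℕ} {E : Finset ℕ}
    {hot : ℕ → ℤ → Prop} (H : Hot A m L R y s E hot) {t : ℕ} (ht : t + 1 < 4 * m) {z : ℤ}
    (hz : z ∈ insert (y ((t + 1) / 4)) (QM A m y s E hot t ∪ WW m y s E t) \
      (QM A m y s E hot (t + 1) ∪ WW m y s E (t + 1))) :
    (t % 4 = 2 ∧ ∃ r ≤ t, z = y (r / 4) ∧ ¬ hot r (y ((t + 1) / 4) / 2 ^ A) ∧
      ∀ q, r < q → q ≤ t + 1 → hot q (y ((t + 1) / 4) / 2 ^ A)) ∨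
    (t % 4 = 3 ∧ z = y (t / 4)) ∨ (t % 4 = 0 ∧ z = y (s (t / 4))) := by
  obtain ⟨h1, h2⟩ := mem_sdiff.1 hz
  rw [mem_union, not_or] at h2
  by_cases c : z ∈ insert (y ((t + 1) / 4)) (QM A m y s E hot t)
  · exact AE.MKBx.del H ht (mem_sdiff.2 ⟨c, h2.1⟩)
  rw [mem_insert, not_or] at c
  have h3 := ((mem_union.1 ((mem_insert.1 h1).resolve_left c.1)).resolve_left c.2)
  obtain ⟨i, hi, rfl⟩ := mem_image.1 h3
  obtain ⟨r1, r2, r4, r5⟩ := mem_filter.1 hi
  have c1 : t = 4 * i := by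
    by_contra c1
    exact h2.2 (mem_image.2 ⟨i, mem_filter.2 ⟨r1, r2, by omega, by omega⟩, rfl⟩)
  exact Or.inr (Or.inr ⟨by omega, by rw [show t / 4 = i by omega]⟩)

theorem one {A m : ℕ} {L R : ℤ} {y : ℕ → ℤ} {s : ℕ → ℕ} {E : Finset ℕ}
    {hot : ℕ → ℤ → Prop} (H : Hot A m L R y s E hot) :
    One (4 * m) (fun q => y (q / 4)) fun t => QM A m y s E hot t ∪ WW m y s E t := by
  intro t ht
  refine card_le_one.2 fun z hz w hw => ?_
  rcases del H ht hz with ⟨a1, r, a2, a3, a4, a5⟩ | ⟨a1, a2⟩ | ⟨a1, a2⟩ <;>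
    rcases del H ht hw with ⟨b1, q, b2, b3, b4, b5⟩ | ⟨b1, b2⟩ | ⟨b1, b2⟩ <;>
    try omega
  rcases lt_trichotomy r q with h | h | h
  · exact absurd (a5 q h (by omega)) b4
  · rw [a3, b3, h]
  · exact absurd (b5 r h (by omega)) a4

theorem card_le (m h t : ℕ) (a s : ℕ → ℕ) (E : Finset ℕ) :
    #(WW m (fun i => (a i : ℤ) + h) s E t) ≤ KK m a s E (t / 4) + 1 := by
  have h1 : WW m (fun i => (a i : ℤ) + h) s E t ⊆
      insert ((a (t / 4) : ℤ) + h) ((((range m).filter fun i => i ∈ E ∧ s i < t / 4 ∧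
        t / 4 ≤ i).image fun i => a (s i)).image fun w : ℕ => (w : ℤ) + h) := by
    intro z hz
    obtain ⟨i, hi, rfl⟩ := mem_image.1 hz
    obtain ⟨r1, r2, r4, r5⟩ := mem_filter.1 hi
    by_cases c : s i = t / 4
    · rw [c]
      exact mem_insert_self _ _
    · exact mem_insert_of_mem (mem_image.2 ⟨a (s i), mem_image.2
        ⟨i, mem_filter.2 ⟨r1, r2, by omega, by omega⟩, rfl⟩, rfl⟩)
  exact (card_le_card h1).trans ((card_insert_le _ _).trans
    (Nat.add_le_add_right card_image_le _))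

theorem pend (A m : ℕ) (y : ℕ → ℤ) (s : ℕ → ℕ) (F : Finset ℕ) (t : ℕ) (c : ℤ)
    (hc : c ≠ y (t / 4) / 2 ^ A) :
    (c ∈ (WW m y s F (t + 1)).image (fun z => z / 2 ^ A) →
      c ∈ (WW m y s F t).image (fun z => z / 2 ^ A)) ∧
    (c ∈ (WW m y s F t).image (fun z => z / 2 ^ A) →
      c ∈ (WW m y s F (t + 1)).image (fun z => z / 2 ^ A) ∨
        (t ∈ F.image (fun i => 4 * i) ∧ c = y (s (t / 4)) / 2 ^ A)) := by
  refine ⟨fun h => ?_, fun h => ?_⟩
  · obtain ⟨z, hz, rfl⟩ := mem_image.1 h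
    obtain ⟨i, hi, rfl⟩ := mem_image.1 hz
    obtain ⟨a1, a3, a4, a5⟩ := mem_filter.1 hi
    by_cases k : 4 * s i + 3 ≤ t
    · exact mem_image.2 ⟨_, mem_image.2 ⟨i, mem_filter.2 ⟨a1, a3, k, by omega⟩, rfl⟩, rfl⟩
    · exact absurd (by rw [show t / 4 = s i by omega]) hc
  · obtain ⟨z, hz, rfl⟩ := mem_image.1 h
    obtain ⟨i, hi, rfl⟩ := mem_image.1 hz
    obtain ⟨a1, a3, a4, a5⟩ := mem_filter.1 hi
    by_cases k : t = 4 * i
    · exact Or.inr ⟨mem_image.2 ⟨i, a3, k.symm⟩, by rw [show t / 4 = i by omega]⟩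
    · exact Or.inl (mem_image.2 ⟨_, mem_image.2
        ⟨i, mem_filter.2 ⟨a1, a3, by omega, by omega⟩, rfl⟩, rfl⟩)

/-- The weight of the levels at which an access and the earlier access are separated. -/
noncomputable def SQ (wt : ℕ → ℕ) (σ J m : ℕ) (y : ℕ → ℤ) (s : ℕ → ℕ) : ℕ :=
  ∑ i ∈ range m, ∑ j ∈ Ioo σ J, if y i / 2 ^ j ≠ y (s i) / 2 ^ j then wt (j - σ) else 0

theorem mkc (wt : ℕ → ℕ) (σ J m : ℕ) (L R : ℤ) (y : ℕ → ℤ) (s : ℕ → ℕ) (E : Finset ℕ)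
    (hot : ℕ → ℤ → Prop) (h : Hot (σ + 1) m L R y s E hot)
    (hs : ∀ i < m, i ∈ E → s i ≤ i - 1) :
    ww wt σ J L R (4 * m) (fun q => y (q / 4))
      (fun t => QM (σ + 1) m y s E hot t ∪ WW m y s E t) ≤ SQ wt σ J m y s := by
  rw [SQ, ← AE.MKCy.sum_four]
  rcases Nat.eq_zero_or_pos m with rfl | hm
  · simp [ww]
  obtain ⟨M, hM⟩ : ∃ M, 4 * m = M + 1 := ⟨4 * m - 1, by omega⟩
  rw [ww, hM, Nat.add_sub_cancel, sum_range_succ']
  refine le_trans (sum_le_sum fun t ht => ?_) (Nat.le_add_right _ _)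
  have h1 : t + 1 < 4 * m := by have := mem_range.1 ht; omega
  by_cases g1 : 4 ∣ t + 1
  · rw [if_pos g1]
    obtain ⟨i, hi⟩ := g1
    have e0 : (t + 1) / 4 = i := by omega
    rw [e0, GP.hit, sum_filter]
    refine sum_le_sum fun j hj => ?_
    have hj' : σ + 1 ≤ j := (mem_Ioo.1 hj).1
    simp only [e0]
    split_ifs with c1 c2
    · exact le_rfl
    · exfalso
      by_cases g2 : i ∈ E
      · have := hs i (by omega) g2
        exact c1.2.2 _ (mem_union_right _ (mem_image.2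
          ⟨i, mem_filter.2 ⟨mem_range.2 (by omega), g2, by omega, by omega⟩, rfl⟩))
          (not_not.1 c2).symm
      obtain ⟨b1, b2⟩ := h.wit i (by omega) g2
      by_cases e : y i / 2 ^ (σ + 1) = y (s i) / 2 ^ (σ + 1)
      · have e1 : (4 * s i + 3) / 4 = s i := by omega
        have h3 := h.near (4 * s i + 3) (t + 1) (by omega) h1 (by rw [e0, e1, e])
          (by rw [hi]; exact (AE.MKCy.dst_four y _ _).trans b2)
        rw [e0] at h3
        obtain ⟨z, hz, e'⟩ := AE.MKCy.hh_ex h.zero h.keep _ t (by omega) h3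
        exact c1.2.2 z (mem_union_left _ (mem_union_left _ hz)) (AE.MKCy.up_eq hj' e')
      · exact c1.2.2 _ (mem_union_left _ (mem_union_right _ (mem_insert_of_mem (mem_image.2
          ⟨i, mem_filter.2 ⟨mem_range.2 (by omega), g2, e, by omega, by omega⟩, rfl⟩))))
          (not_not.1 c2).symm
    · exact Nat.zero_le _
    · exact le_rfl
  · rw [if_neg g1]
    refine le_of_eq (sum_eq_zero fun j hj => absurd ?_
      ((mem_filter.1 hj).2.2.2 (y (t / 4))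
        (mem_union_left _ (mem_union_right _ (mem_insert_self _ _)))))
    beta_reduce
    rw [show (t + 1) / 4 = t / 4 by omega]

theorem avq {A B : ℕ} {wt R G : ℕ → ℕ} (hw : Wt A wt R) (hG : ∀ l, R (l + 1) ≤ B * (G l + 1))
    (hm : Monotone G) (u m σ T' : ℕ) (a s v : ℕ → ℕ) (E : Finset ℕ) (hW : Wit u m a s v E)
    (hu : u ≤ σ) :
    ∑ h ∈ range (2 ^ T'), SQ wt σ (T' + 1) m (fun i => (a i : ℤ) + h) s ≤
      2 ^ T' * ((300 * A + 1) * B * ((G 1 + 1) * m +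
        ∑ i ∈ E, G (Nat.log 2 (Nat.dist (a i) (a (s i)) / 2 ^ u + 1)))) := by
  have e : ∀ h : ℕ, SQ wt σ (T' + 1) m (fun i => (a i : ℤ) + h) s =
      ∑ i ∈ range m, ∑ j ∈ Ioo σ (T' + 1),
        if (a i + h) / 2 ^ j ≠ (a (s i) + h) / 2 ^ j then wt (j - σ) else 0 := by
    intro h
    unfold SQ
    refine sum_congr rfl fun i _ => sum_congr rfl fun j _ => if_congr ?_ rfl rfl
    have k : ∀ w : ℕ, ((w : ℤ) + h) / 2 ^ j = (((w + h) / 2 ^ j : ℕ) : ℤ) := fun w => by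
      push_cast
      rfl
    simp only [k, ne_eq, Nat.cast_inj]
  simp only [e]
  rw [sum_comm]
  have k1 : ∑ i ∈ range m, (G 1 + 1 +
      if i ∈ E then G (Nat.log 2 (Nat.dist (a i) (a (s i)) / 2 ^ u + 1)) else 0) ≤
      (G 1 + 1) * m + ∑ i ∈ E, G (Nat.log 2 (Nat.dist (a i) (a (s i)) / 2 ^ u + 1)) := by
    rw [sum_add_distrib, sum_const, card_range, smul_eq_mul, mul_comm, ← sum_filter]
    exact Nat.add_le_add_left (sum_le_sum_of_subset fun i hi => (mem_filter.1 hi).2) _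
  refine le_trans ?_ (Nat.mul_le_mul_left _ (Nat.mul_le_mul_left _ k1))
  rw [mul_sum, mul_sum]
  refine sum_le_sum fun i hi => (WQ.avg hw σ T' (a i) (a (s i)) _ rfl).trans
    (Nat.mul_le_mul_left _ ?_)
  rw [mul_assoc]
  refine Nat.mul_le_mul_left _ ((hG _).trans (Nat.mul_le_mul_left _ ?_))
  by_cases g : i ∈ E
  · rw [if_pos g]
    have := hm (Nat.log_mono_right (b := 2) (Nat.add_le_add_right
      (Nat.div_le_div_left (a := Nat.dist (a i) (a (s i)))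
        (Nat.pow_le_pow_right two_pos hu) (Nat.two_pow_pos u)) 1))
    omega
  · rw [if_neg g]
    obtain ⟨-, w2, w3⟩ := hW i (mem_range.1 hi) g
    have w4 : 2 ^ v i ≤ 2 ^ σ := Nat.pow_le_pow_right two_pos (w2.trans hu)
    have w5 : Nat.dist (a i) (a (s i)) / 2 ^ σ ≤ 1 :=
      (Nat.div_le_div_right (by omega)).trans (Nat.div_self (Nat.two_pow_pos σ)).le
    have w6 : Nat.log 2 (Nat.dist (a i) (a (s i)) / 2 ^ σ + 1) ≤ 1 :=
      (Nat.log_mono_right (Nat.succ_le_succ w5)).trans (by norm_num)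
    have := hm w6
    omega

theorem run (hALL : AG.S_ALL) (hBUD : AG.S_BUD) (hMKA : AE.S_MKA) (hAVA : AE.S_AVA)
    (hAVC : AE.S_AVC) (A B : ℕ) (wt R G : ℕ → ℕ) (hwt : Wt A wt R) (hT : S_LQ wt)
    (hG : ∀ l, R (l + 1) ≤ B * (G l + 1)) (hmo : Monotone G) :
    ∃ C : ℕ, ∀ (n u m : ℕ) (a s v : ℕ → ℕ) (F : Finset ℕ), 1 ≤ n → (∀ i < m, 1 ≤ a i ∧ a i ≤ n) →
    Wit u m a s v F → (∀ i < m, i ∈ F → s i ≤ i - 1) → (∀ t, KK m a s F t ≤ 2 ^ (u + 2)) →
    ∃ h : ℕ, ∀ d : NU.Run, d.OK → d.L = h → d.R = (h : ℤ) + n + 1 →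
      d.m = 4 * m → (d.x = fun q => (a (q / 4) : ℤ) + h) →
      100 * (d.LamR + d.mir.LamR) ≤ d.NR + d.mir.NR +
        C * (∑ i ∈ (range m).filter (fun i => i ∉ F), (v i + 1) +
          (n + m) * (Nat.log 2 (u + 1) + 1) ^ 8 + n * (u + 1) + #F * (u + 1) +
          ∑ i ∈ F, G (Nat.log 2 (Nat.dist (a i) (a (s i)) / 2 ^ u + 1))) := by
  obtain ⟨Cl, hl⟩ := hALL A wt R hwt hT
  obtain ⟨Cb, hb⟩ := hBUD
  obtain ⟨Ca, ha⟩ := hAVA
  obtain ⟨Cq, hCq⟩ : ∃ Cq, Cq = (300 * A + 1) * B := ⟨_, rfl⟩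
  obtain ⟨D, hD⟩ : ∃ D, D = 12 * Ca + Cq * (G 1 + 1) + 4 := ⟨_, rfl⟩
  refine ⟨Cl * (16 * (Cb + 7) ^ 7 + Cb * (16 + D) + 22 + 6 * D + 4 * Cb),
    fun n u m a s v F hn ha1 hw hs hk => ?_⟩
  obtain ⟨g, hg⟩ : ∃ g, g = Nat.log 2 (u + 1) + 1 := ⟨_, rfl⟩
  obtain ⟨P, hP⟩ : ∃ P, P = ∑ i ∈ F, G (Nat.log 2 (Nat.dist (a i) (a (s i)) / 2 ^ u + 1)) := ⟨_, rfl⟩
  rw [← hg, ← hP]
  have g1 : 1 ≤ g := by omega
  have g2 : u + 1 < 2 ^ g := by rw [hg]; exact Nat.lt_pow_succ_log_self (by norm_num) _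
  have g3 : 2 ^ g ≤ 2 * (u + 1) := by
    have := Nat.pow_log_le_self 2 (x := u + 1) (by omega)
    rw [hg, pow_succ]; omega
  obtain ⟨σ, hσ⟩ : ∃ σ, σ + 1 = 2 ^ (g + 1) := ⟨2 ^ (g + 1) - 1, by
    have : 0 < 2 ^ (g + 1) := by positivity
    omega⟩
  have g4 : σ + 1 = 2 * 2 ^ g := by rw [hσ, pow_succ]; omega
  obtain ⟨T', hT'⟩ : ∃ T', T' = Nat.log 2 (n + 1) + 1 + (σ + 1) := ⟨_, rfl⟩
  have t1 : n + 1 < 2 ^ T' :=
    (Nat.lt_pow_succ_log_self (by norm_num) _).trans_le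
      (Nat.pow_le_pow_right (by norm_num) (by omega))
  obtain ⟨V, hV⟩ : ∃ V, V = ∑ i ∈ (range m).filter (fun i => i ∉ F), (v i + 1) := ⟨_, rfl⟩
  have a1 := ha n u m (g + 1) T' a s v _ hw (by omega)
  have a2 := avq hwt hG hmo u m σ T' a s v F hw (by omega)
  rw [← hCq, ← hP] at a2
  have a3 := hAVC u m (σ + 1) T' a s v _ hw (by omega) (by omega)
  rw [← hV] at a1 ⊢
  obtain ⟨h, hh, hf⟩ := exists_le_of_sum_le (s := range (2 ^ T'))
    (f := fun h : ℕ => NU.MM (fun q => (a (q / 4) : ℤ) + h) n (4 * m) (g + 1) +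
      SQ wt σ (T' + 1) m (fun i => (a i : ℤ) + h) s +
      ∑ t ∈ range (4 * m), #(PP (σ + 1) m (fun i => (a i : ℤ) + h) s F t))
    (g := fun _ => Ca * (V + m + (n + 1 + #F) * 2 ^ (g + 1)) + Cq * ((G 1 + 1) * m + P) + 4 * m)
    ⟨0, mem_range.2 (by positivity)⟩ (by
      rw [sum_add_distrib, sum_add_distrib, sum_comm, sum_const, card_range, smul_eq_mul]
      have := sum_le_card_nsmul (range (4 * m)) _ _ fun t _ => a3 t
      rw [card_range, smul_eq_mul, mul_comm (4 * m)] at this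
      rw [mul_add, mul_add]
      omega)
  have hh' := mem_range.1 hh
  refine ⟨h, fun d ok d1 d2 d3 d4 => ?_⟩
  have u1 : 2 ^ (u + 2) + 1 ≤ 2 ^ (σ + 1) := by
    have h1 : 2 ^ (u + 2 + 1) ≤ 2 ^ (σ + 1) := Nat.pow_le_pow_right (by norm_num) (by omega)
    have h2 : 1 ≤ 2 ^ (u + 2) := Nat.one_le_two_pow
    rw [pow_succ 2 (u + 2)] at h1
    omega
  obtain ⟨S, ho, s1, s2, s0, s3, s4, s5, s6, s6', s7, s7', s8⟩ := hb (g + 1) n d
    (fun t => (WW m (fun i => (a i : ℤ) + h) s F t).image fun z => z / 2 ^ (σ + 1))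
    (F.image fun i => 4 * i)
    (fun t => ((a (s (t / 4)) : ℤ) + h) / 2 ^ (σ + 1)) ok (by omega) (by omega)
    (fun t => by
      rw [← hσ]
      exact card_image_le.trans ((card_le m h t a s F).trans
        ((Nat.add_le_add_right (hk _) 1).trans u1)))
    (fun t _ c hc => pend (σ + 1) m _ s F t c (by rw [← hσ, d4] at hc; exact hc))
  rw [← hσ] at s5 s6' s7
  have hot : Hot (σ + 1) m d.L d.R (fun i => (a i : ℤ) + h) s F ho := by
    refine ⟨fun i hi => ?_, fun i hi hE => ⟨(hw i hi hE).1, ?_⟩, fun t c ht hc => ?_, s6,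
      fun r t h1 h2 h3 h4 => ?_⟩
    · have := ha1 i hi
      omega
    · obtain ⟨-, w2, w3⟩ := hw i hi hE
      have e : (Ioc (s i) i).image (fun i => (a i : ℤ) + h) =
          ((Ioc (s i) i).image a).image fun w : ℕ => (w : ℤ) + h := by
        rw [image_image]; rfl
      have : 2 ^ v i ≤ 2 ^ (σ + 1) := Nat.pow_le_pow_right (by norm_num) (by omega)
      unfold NU.dst
      rw [e]
      exact card_image_le.trans (by omega)
    · exact s6' t c (by omega) (by rw [d4]; exact hc)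
    · have := s7 r t h1 (by omega) (by rw [d4]; exact h3) (by rw [d4]; exact h4)
      rw [d4] at this
      exact this
  obtain ⟨⟨c0, Z0, n1⟩, ⟨c', Z', m2⟩, m3, m4⟩ := hMKA _ _ _ _ _ _ _ _ hot
  obtain ⟨c, Z, m1⟩ := mk_union (s := s) (E := F) n1 hot.mem
  have m5 := one hot
  have m6 := mkc wt σ (T' + 1) _ _ _ _ _ _ _ hot hs
  have hJ : d.L / 2 ^ (T' + 1) = d.R / 2 ^ (T' + 1) := by
    have h1 : ((h + n + 1 : ℕ) : ℤ) < ((2 ^ (T' + 1) : ℕ) : ℤ) := by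
      rw [Nat.cast_lt, pow_succ]; omega
    push_cast at h1
    rw [d1, d2, Int.ediv_eq_zero_of_lt (by omega) (by omega),
      Int.ediv_eq_zero_of_lt (by omega) h1]
  have l1 := hl σ (T' + 1) c Z c' Z' d S _ _ s3 hJ (by rw [d3, d4]; exact m1)
    (by rw [d3, d4]; exact m5) (by rw [d3, d4]; exact m2) s4 (fun a b => by rw [s5, s5])
    (fun t ht z hz => by
      rw [s5, d4]
      rcases mem_union.1 hz with hz | hz
      · rcases m4 t (by omega) z hz with h1 | h1 | h1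
        · exact Or.inl h1
        · exact Or.inr (Or.inl h1)
        · exact Or.inr (Or.inr (s7' t _ (Or.inl h1)))
      · exact Or.inr (Or.inr (s7' t _ (Or.inr (mem_image_of_mem _ hz)))))
  have k1 : (d.R - d.L).toNat = n + 1 := by omega
  rw [k1, d3, d4] at l1
  rw [d3, d4] at s8
  refine l1.trans (Nat.add_le_add_left ?_ _)
  rw [mul_assoc Cl]
  refine Nat.mul_le_mul_left Cl ?_
  have b1 : TV.sw (n + 1) (4 * m) (fun t => insert ((a (t / 4) : ℤ) + h)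
      (PP (σ + 1) m (fun i => (a i : ℤ) + h) s F t)) ≤ n + 1 + 5 * (4 * m +
      ∑ t ∈ range (4 * m), #(PP (σ + 1) m (fun i => (a i : ℤ) + h) s F t)) := by
    unfold TV.sw
    refine Nat.add_le_add ?_ (Nat.mul_le_mul_left _ ?_)
    · simp [m3]
    · refine (sum_le_sum (g := fun t => 1 + #(PP (σ + 1) m (fun i => (a i : ℤ) + h) s F t))
        fun t _ => ?_).trans ?_
      · refine le_trans (Nat.size_le.2 Nat.lt_two_pow_self) ?_
        rw [add_comm 1]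
        exact card_insert_le _ _
      · rw [sum_add_distrib, sum_const, card_range, smul_eq_mul, mul_one]
  have b2 : Nat.size (ht S) + 1 ≤ (Cb + 7) * g := by
    have h1 : ht S < 2 ^ (g + 3 + Cb + (g + 1)) := by
      unfold ht
      rw [s1, pow_add, pow_add (2 : ℕ) (g + 3), mul_assoc]
      refine Nat.mul_lt_mul_of_lt_of_le Nat.lt_two_pow_self (s2.trans ?_) (by positivity)
      exact Nat.mul_le_mul_right _ Nat.lt_two_pow_self.le
    have h2 := Nat.size_le.2 h1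
    have h3 : Cb ≤ Cb * g := Nat.le_mul_of_pos_right _ g1
    rw [add_mul]
    omega
  have b3 : (n + 1 + 4 * m) * (S.J + 1) * (Nat.size (ht S) + 1) ^ 7 ≤
      16 * (Cb + 7) ^ 7 * ((n + m) * g ^ 8) :=
    calc _ ≤ (4 * (n + m)) * (4 * g) * ((Cb + 7) * g) ^ 7 :=
          Nat.mul_le_mul (Nat.mul_le_mul (by omega) (by omega)) (Nat.pow_le_pow_left b2 7)
      _ = _ := by ring
  have b4 : (n + m) * g ≤ (n + m) * g ^ 8 :=
    Nat.mul_le_mul_left _ (Nat.le_self_pow (by norm_num) g)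
  have b5 : n + m ≤ (n + m) * g := Nat.le_mul_of_pos_right _ g1
  have b6 : 4 * m * (g + 1 + 2) ≤ 16 * ((n + m) * g) :=
    calc _ ≤ (4 * (n + m)) * (4 * g) := Nat.mul_le_mul (by omega) (by omega)
      _ = _ := by ring
  have b7 : (n + 1 + #F) * 2 ^ (g + 1) ≤ 12 * (n * (u + 1)) + 4 * (#F * (u + 1)) :=
    calc _ ≤ (3 * n + #F) * (4 * (u + 1)) :=
          Nat.mul_le_mul (by omega) (by omega)
      _ = _ := by ring
  have b9 : #S.DR * S.W ≤ Cb * (4 * (#F * (u + 1))) :=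
    calc _ ≤ #F * (Cb * (4 * (u + 1))) := Nat.mul_le_mul (s0 ▸ card_image_le)
          (s2.trans (Nat.mul_le_mul_left _ (by omega)))
      _ = _ := by ring
  have b8 : (G 1 + 1) * m + P ≤ (G 1 + 1) * (m + P) := by
    rw [mul_add]
    exact Nat.add_le_add_left (Nat.le_mul_of_pos_left _ (by omega)) _
  generalize (n + m) * g ^ 8 = X at *
  generalize n * (u + 1) = Y at *
  generalize #F * (u + 1) = U at *
  obtain ⟨H, hH⟩ : ∃ H, H = V + X + Y + U + P := ⟨_, rfl⟩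
  rw [← hH]
  have c0 : Cq * ((G 1 + 1) * m + P) ≤ Cq * ((G 1 + 1) * H) :=
    Nat.mul_le_mul_left _ (b8.trans (Nat.mul_le_mul_left _ (by omega)))
  have c1 : Ca * (V + m + (n + 1 + #F) * 2 ^ (g + 1)) ≤ Ca * (12 * H) :=
    Nat.mul_le_mul_left _ (by omega)
  have c2 : D * H = Ca * (12 * H) + Cq * ((G 1 + 1) * H) + 4 * H := by rw [hD]; ring
  generalize NU.MM (fun q => (a (q / 4) : ℤ) + h) n (4 * m) (g + 1) = M1 at *
  have c3 : Cb * (4 * m * (g + 1 + 2) + M1) ≤ Cb * (16 * H + D * H) :=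
    Nat.mul_le_mul_left _ (by omega)
  have c4 : 16 * (Cb + 7) ^ 7 * X ≤ 16 * (Cb + 7) ^ 7 * H := Nat.mul_le_mul_left _ (by omega)
  have c5 : (16 * (Cb + 7) ^ 7 + Cb * (16 + D) + 22 + 6 * D + 4 * Cb) * H =
      16 * (Cb + 7) ^ 7 * H + Cb * (16 * H + D * H) + 22 * H + 6 * (D * H) + Cb * (4 * H) := by
    ring
  have c6 : Cb * (4 * U) ≤ Cb * (4 * H) := Nat.mul_le_mul_left _ (by omega)
  omega

theorem p_LOC (hALL : AG.S_ALL) (hBUD : AG.S_BUD) (hMKA : AE.S_MKA) (hAVA : AE.S_AVA)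
    (hAVC : AE.S_AVC) (hEPS : WQ.S_EPS) (hALGA : NU.S_ALGA) (hBRG : NU.S_BRG)
    (hTURN : NU.S_TURN) : S_LOC := by
  intro q hq
  obtain ⟨wt, D, h1, hs, hT⟩ := hEPS q hq
  have hw : Wt 4 (fun k => if k = 0 then 0 else wt k) fun l => 2 * D * gq q l := by
    refine ⟨if_pos rfl, fun k hk => ?_, fun l => ?_, fun l e hl => ?_⟩
    · rw [if_neg (by omega)]
      exact h1 k hk
    · rcases Nat.eq_zero_or_pos l with rfl | hl
      · simp
      have h2 := WQ.gq_pos q l hl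
      have h3 : ∑ k ∈ range (l + 1), (if k = 0 then 0 else wt k) ≤ ∑ k ∈ range (l + 1), wt k :=
        sum_le_sum fun k _ => by split_ifs <;> omega
      refine h3.trans ((hs l).trans ?_)
      rw [mul_comm 2 D, mul_assoc]
      exact Nat.mul_le_mul_left _ (by omega)
    · refine (Nat.mul_le_mul_left _ (WQ.gq_grow (by omega) l e hl)).trans (le_of_eq ?_)
      ring
  have hG : ∀ l, 2 * D * gq q (l + 1) ≤ 128 * D * (gq q l + 1) := by
    intro l
    have h4 : gq q (l + 1) ≤ 64 * (gq q l + 1) := by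
      rcases Nat.eq_zero_or_pos l with rfl | hl
      · simp [gq]
      · have := WQ.gq_grow (q := q) (by omega) l 1 hl
        omega
    calc 2 * D * gq q (l + 1) ≤ 2 * D * (64 * (gq q l + 1)) := Nat.mul_le_mul_left _ h4
      _ = _ := by ring
  obtain ⟨C, hC⟩ := run hALL hBUD hMKA hAVA hAVC 4 (128 * D) _ _ (gq q) hw (WQ.lq_zero hT) hG (WQ.gq_mono q)
  clear hw hG hT hs h1
  refine ⟨C + 160, fun n u m T a s v E h2 h3 hw hs hk => ?_⟩
  rcases Nat.eq_zero_or_pos n with rfl | hn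
  · rcases Nat.eq_zero_or_pos m with rfl | hm
    · simp [cost]
    · have := h3 0 hm
      omega
  obtain ⟨h, key⟩ := hC n u m a s v E hn h3 hw hs hk
  have c1 := TV.cost_half T a m
  have c2 := TV.cost_half T (fun i => a (i / 2)) (2 * m)
  have e1 : (fun i => a (i / 2 / 2)) = fun q => a (q / 4) := by
    funext q
    rw [Nat.div_div_eq_div_mul]
  have e2 : 2 * (2 * m) = 4 * m := by omega
  simp only [e1, e2] at c2
  have k4 : n + m ≤ (n + m) * (Nat.log 2 (u + 1) + 1) ^ 8 :=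
    Nat.le_mul_of_pos_right _ (by positivity)
  generalize (n + m) * (Nat.log 2 (u + 1) + 1) ^ 8 = X at k4 key ⊢
  generalize ∑ i ∈ (range m).filter (fun i => i ∉ E), (v i + 1) = V at key ⊢
  generalize n * (u + 1) = D at key ⊢
  generalize #E * (u + 1) = F at key ⊢
  generalize ∑ i ∈ E, gq q (Nat.log 2 (Nat.dist (a i) (a (s i)) / 2 ^ u + 1)) = P at key ⊢
  obtain ⟨d, d1, d2, d3, d4, d5, d6, d7, d8⟩ :=
    hBRG n (4 * m) h T (fun q => a (q / 4)) h2 fun i hi => h3 _ (by omega)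
  obtain ⟨e, e1, e2, e3, e4⟩ := hALGA d d5
  have t := hTURN d e d5 e2 e1 d6 d7
  obtain ⟨f1, f2, f3, f4⟩ := e1
  have l1 := key d d5 d1 d2 d3 d4
  have l2 := key e e2 (f1.trans d1) (f2.trans d2) (f3.trans d3) (f4.trans d4)
  rw [f3, d3] at e3 e4
  have k3 : (d.R - d.L).toNat = n + 1 := by omega
  rw [k3, d3] at t
  have k5 : (C + 160) * (V + X + D + F + P) =
      C * (V + X + D + F + P) + 160 * (V + X + D + F + P) := by ring
  omega

end Pool.Agent.P.MP_119182_lc.AH
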