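import Pool.Agent.P.MP_119182_lc.AG.All
import Pool.Agent.P.MP_119182_lc.AH.Run
import Pool.Agent.P.MP_119182_lc.AH.End

/-! The bound with cached references, assembled. -/

set_option autoImplicit false

namespace Pool.Agent.P.MP_119182_lc.AH

theorem a_LOC : S_LOC :=
  p_LOC AG.a_ALL AG.a_BUD AE.p_MKA AE.p_AVA AE.p_AVC LQ.a_EPS (NU.p_ALGA NU.p_EMIR) NU.p_BRG
    (NU.p_TURN NU.p_EMIR NU.p_WCNT NU.p_TSPL NU.p_NS (NU.p_DBL NU.p_LW))
theorem a_END : S_END := p_END a_LOC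

end Pool.Agent.P.MP_119182_lc.AH
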