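import Pool.Agent.P.MP_119182_lc.AG.IfaceB

/-! References kept in a small cache. -/

set_option autoImplicit false

namespace Pool.Agent.P.MP_119182_lc.AH

open Finset
open scoped Classical
open AE (Wit)
open WQ (gq)

/-- The number of keys that wait for an access of `F` at time `t`. -/
noncomputable def KK (m : ℕ) (a s : ℕ → ℕ) (F : Finset ℕ) (t : ℕ) : ℕ :=
  #(((range m).filter fun i => i ∈ F ∧ s i < t ∧ t ≤ i).image fun i => a (s i))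

/-- The bound with witnesses. -/
def S_LOC : Prop :=
  ∀ q : ℕ, 2 ≤ q → ∃ C : ℕ, ∀ (n u m : ℕ) (T : BT) (a s v : ℕ → ℕ) (F : Finset ℕ),
    T.keys = List.range' 1 n → (∀ i < m, 1 ≤ a i ∧ a i ≤ n) → Wit u m a s v F →
    (∀ i < m, i ∈ F → s i ≤ i - 1) → (∀ t, KK m a s F t ≤ 2 ^ (u + 2)) →
    cost T ((List.range m).map a) ≤
      C * (∑ i ∈ (range m).filter (fun i => i ∉ F), (v i + 1) +
        (n + m) * (Nat.log 2 (u + 1) + 1) ^ 8 + n * (u + 1) + #F * (u + 1) +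
        ∑ i ∈ F, gq q (Nat.log 2 (Nat.dist (a i) (a (s i)) / 2 ^ u + 1)))

/-- The end statement. -/
def S_END : Prop :=
  ∀ ε : ℝ, 0 < ε → ∃ C : ℝ, ∀ (n m u : ℕ) (T : BT) (a y : ℕ → ℕ) (Q : ℕ → Finset ℕ),
    T.keys = List.range' 1 n → (∀ i < m, 1 ≤ a i ∧ a i ≤ n) → Q 0 = ∅ →
    (∀ i, Q (i + 1) ⊆ insert (a i) (Q i)) → (∀ i, (Q i).card ≤ 2 ^ u) →
    (∀ i < m, wset a i (y i) ≤ 2 ^ u ∨ y i ∈ Q i) →
    (cost T ((List.range m).map a) : ℝ) ≤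
      C * ((∑ i ∈ Finset.range m, min u (Nat.log 2 (wset a i (y i) + Nat.dist (a i) (y i))) +
          (n + m) * (Nat.log 2 u + 1) ^ 8 + n * (u + 1) : ℕ) +
        ∑ i ∈ Finset.range m,
          (Nat.log 2 (Nat.dist (a i) (y i) / 2 ^ u + 1) : ℝ) ^ (1 + ε))

end Pool.Agent.P.MP_119182_lc.AH
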